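import Pool.Agent.Lib.MP_acafa7_al.F.IfaceC

/-! KEY: section 7.1 (e), (f) of PaperF -/

namespace MSG.F22

open Classical

section dist

variable {V : Type} {G : SimpleGraph V} {H : Type} [Group H] [MulAction H V]

theorem dist_smul_le (hc : G.Connected) (ha : Aut G H) (h : H) (x y : V) :
    G.dist (h • x) (h • y) ≤ G.dist x y := by
  obtain ⟨w, hw⟩ := hc.exists_walk_length_eq_dist x y
  let f : G →g G := { toFun := fun v => h • v, map_rel' := fun {a b} hab => (ha h a b).2 hab }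
  have h1 := SimpleGraph.dist_le (w.map f)
  rw [SimpleGraph.Walk.length_map, hw] at h1
  exact h1

theorem dist_smul (hc : G.Connected) (ha : Aut G H) (h : H) (x y : V) :
    G.dist (h • x) (h • y) = G.dist x y := by
  apply le_antisymm (dist_smul_le hc ha h x y)
  have := dist_smul_le hc ha h⁻¹ (h • x) (h • y)
  rwa [inv_smul_smul, inv_smul_smul] at this

theorem dH_spec (x y : V) : ∃ h : H, G.dist x (h • y) = dH G H x y :=
  Nat.sInf_mem (s := {n | ∃ h : H, G.dist x (h • y) = n}) ⟨_, 1, rfl⟩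

theorem dH_le (x y : V) (h : H) : dH G H x y ≤ G.dist x (h • y) :=
  Nat.sInf_le ⟨h, rfl⟩

theorem dH_self (x : V) : dH G H x x = 0 := by
  have h := dH_le (G := G) (H := H) x x 1
  rw [one_smul, SimpleGraph.dist_self] at h
  omega

theorem dH_symm_le (hc : G.Connected) (ha : Aut G H) (x y : V) : dH G H x y ≤ dH G H y x := by
  obtain ⟨h, hh⟩ := dH_spec (G := G) (H := H) y x
  have h1 := dH_le (G := G) (H := H) x y h⁻¹
  have h2 := dist_smul hc ha h⁻¹ y (h • x)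
  rw [inv_smul_smul] at h2
  rw [SimpleGraph.dist_comm, h2, hh] at h1
  exact h1

theorem dH_symm (hc : G.Connected) (ha : Aut G H) (x y : V) : dH G H x y = dH G H y x :=
  le_antisymm (dH_symm_le hc ha x y) (dH_symm_le hc ha y x)

theorem dH_tri (hc : G.Connected) (ha : Aut G H) (x y z : V) :
    dH G H x z ≤ dH G H x y + dH G H y z := by
  obtain ⟨h, hh⟩ := dH_spec (G := G) (H := H) x y
  obtain ⟨h', hh'⟩ := dH_spec (G := G) (H := H) y z
  have h1 := dH_le (G := G) (H := H) x z (h * h')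
  have h2 := hc.dist_triangle (u := x) (v := h • y) (w := h • h' • z)
  rw [dist_smul hc ha] at h2
  rw [mul_smul] at h1
  omega

theorem fj_spec (q : ℕ → V) (a b : ℕ) (hab : a ≤ b) (x : V) :
    ∃ i, a ≤ i ∧ i ≤ b ∧ ∃ h : H, G.dist x (h • q i) = fj G H q a b x :=
  Nat.sInf_mem (s := {n | ∃ i, a ≤ i ∧ i ≤ b ∧ ∃ h : H, G.dist x (h • q i) = n})
    ⟨_, a, le_refl a, hab, 1, rfl⟩

theorem fj_lip (hc : G.Connected) (ha : Aut G H) (q : ℕ → V) (a b : ℕ) (hab : a ≤ b) (x y : V) :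
    fj G H q a b x ≤ dH G H x y + fj G H q a b y := by
  obtain ⟨h, hh⟩ := dH_spec (G := G) (H := H) x y
  obtain ⟨i, hi1, hi2, h', hh'⟩ := fj_spec (G := G) (H := H) q a b hab y
  have h1 : fj G H q a b x ≤ G.dist x ((h * h') • q i) :=
    Nat.sInf_le ⟨i, hi1, hi2, h * h', rfl⟩
  have h2 := hc.dist_triangle (u := x) (v := h • y) (w := h • h' • q i)
  rw [dist_smul hc ha] at h2
  rw [mul_smul] at h1
  omega

theorem fj_diff (hc : G.Connected) (ha : Aut G H) (q : ℕ → V) (a b a' b' : ℕ) (hab : a ≤ b)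
    (hab' : a' ≤ b') (x y : V) :
    |((fj G H q a b x : ℤ) - fj G H q a' b' x) - ((fj G H q a b y : ℤ) - fj G H q a' b' y)|
      ≤ 2 * dH G H x y := by
  have h1 := fj_lip hc ha q a b hab x y
  have h2 := fj_lip hc ha q a b hab y x
  have h3 := fj_lip hc ha q a' b' hab' x y
  have h4 := fj_lip hc ha q a' b' hab' y x
  rw [dH_symm hc ha y x] at h2 h4
  rw [abs_le]
  constructor <;> omega

end dist

theorem key_st (hA : KeyAStatement) (hV : VitStatement) : KeyStatement := by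
  intro C N₀
  obtain ⟨Λ, hΛ⟩ := hA C N₀
  set r₀ : ℕ := 300000 * Λ + 10 with hr₀
  refine ⟨r₀, (4 * r₀ + 5) ^ 2, fun c => ?_⟩
  obtain ⟨K₀, hK⟩ := hΛ r₀ (by omega) c
  refine ⟨K₀, ?_⟩
  intro V G hG p _ H _ _ _ hAut hP z hz k n q β i₁ i₂ hk hn hPol Sm hSm
  obtain ⟨T, ρ, hTc, hρ, hmain⟩ := hK V G hG p H hAut hP z hz k n q β i₁ i₂ hk hn hPol Sm hSm
  have hc := hG.conn
  set A : ℕ := 3 * (3 * C + 2) * k with hAdef
  have hA2 : 6 * (3 * C + 2) * k = 2 * A := by rw [hAdef]; ring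
  rw [hA2] at hmain
  set τ : V → ℤ × ℤ := fun x => ((fj G H q 0 i₁ x : ℤ) - fj G H q i₁ i₂ x,
    (fj G H q 0 i₁ x : ℤ) - fj G H q i₂ n x) with hτ
  have hτl : ∀ x y, |(τ x).1 - (τ y).1| ≤ 2 * dH G H x y ∧ |(τ x).2 - (τ y).2| ≤ 2 * dH G H x y :=
    fun x y => ⟨fj_diff hc hAut q 0 i₁ i₁ i₂ (Nat.zero_le _) hPol.le1 x y,
      fj_diff hc hAut q 0 i₁ i₂ n (Nat.zero_le _) hPol.le2 x y⟩
  -- choose the data for every parameter
  have hch : ∀ t : ℕ × ℕ, ∃ x x₀ x₁ x₂ : V, t ∈ Finset.Icc A (2 * A) ×ˢ Finset.Icc A (2 * A) →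
      (x ∈ Sm ∧ x₀ ∈ T ∧ x₁ ∈ T ∧ x₂ ∈ T ∧ dH G H x₀ x ≤ ρ x₀ ∧ dH G H x₁ x ≤ ρ x₁ + 1 ∧
          dH G H x₂ x ≤ ρ x₂ + 1 ∧
          Subgroup.closure {h : H | G.dist x₀ (h • x₀) ≤ 2 * ρ x₀ + 1} = ⊤ ∧
          ∀ R : ℕ, ρ x₀ ≤ R → ρ x₁ ≤ R → ρ x₂ ≤ R →
            |(t.1 : ℤ) - (τ x).1| ≤ 2 * R + 2 ∧ |(t.2 : ℤ) - (τ x).2| ≤ 2 * R + 2) := by
    intro t
    by_cases ht : t ∈ Finset.Icc A (2 * A) ×ˢ Finset.Icc A (2 * A)
    · have ht' := ht
      rw [Finset.mem_product, Finset.mem_Icc, Finset.mem_Icc] at ht'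
      obtain ⟨x, hx, x₀, hx₀, x₁, hx₁, x₂, hx₂, h1, h2, h3, h4, h5⟩ :=
        hmain t.1 t.2 ht'.1.1 ht'.1.2 ht'.2.1 ht'.2.2
      exact ⟨x, x₀, x₁, x₂, fun _ => ⟨hx, hx₀, hx₁, hx₂, h1, h2, h3, h4, h5⟩⟩
    · by_cases hne : Nonempty V
      · exact ⟨hne.some, hne.some, hne.some, hne.some, fun h => absurd h ht⟩
      · exact absurd ⟨q 0⟩ hne
  choose X X₀ X₁ X₂ hX using hch
  set Gr : Finset (ℕ × ℕ) := Finset.Icc A (2 * A) ×ˢ Finset.Icc A (2 * A) with hGr
  have hGrc : Gr.card = (A + 1) ^ 2 := by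
    rw [hGr, Finset.card_product, Nat.card_Icc]
    have : 2 * A + 1 - A = A + 1 := by omega
    rw [this]; ring
  set good : Finset (ℕ × ℕ) := Gr.filter (fun t => ρ (X₀ t) ≤ r₀ ∧ ρ (X₁ t) ≤ r₀ ∧ ρ (X₂ t) ≤ r₀)
    with hgood
  set bad : Finset (ℕ × ℕ) :=
    Gr.filter (fun t => ¬ (ρ (X₀ t) ≤ r₀ ∧ ρ (X₁ t) ≤ r₀ ∧ ρ (X₂ t) ≤ r₀)) with hbad
  have hgb : good.card + bad.card = (A + 1) ^ 2 := by
    rw [← hGrc, hgood, hbad]
    exact Finset.card_filter_add_card_filter_not _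
  -- the bad parameters
  let e : ℕ × ℕ → ℤ × ℤ := fun t => ((t.1 : ℤ), (t.2 : ℤ))
  have he : Function.Injective e := by
    rintro ⟨a, b⟩ ⟨a', b'⟩ h
    simp only [e, Prod.mk.injEq, Nat.cast_inj] at h
    rw [h.1, h.2]
  have hbadc : r₀ * bad.card ≤ 300000 * T.card := by
    have hv := hV {x // x ∈ T} (fun x y => dH G H x.1 y.1) (fun x => ρ x.1) (fun x => τ x.1) r₀
      (by omega) (fun x => dH_self x.1) (fun x y => dH_symm hc hAut x.1 y.1)
      (fun x y w => dH_tri hc hAut x.1 y.1 w.1) (fun x y => hτl x.1 y.1) (by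
        intro x hx
        have h1 := (hρ x.1 x.2).2 hx
        have h2 : (Finset.univ.filter (fun y : {x // x ∈ T} => dH G H x.1 y.1 ≤ ρ x.1 - 1)).card
            = (T.filter (fun y => dH G H x.1 y ≤ ρ x.1 - 1)).card := by
          rw [← Finset.card_map (Function.Embedding.subtype (fun y => y ∈ T))]
          congr 1
          ext y
          simp only [Finset.mem_map, Finset.mem_filter, Finset.mem_univ, true_and,
            Function.Embedding.coe_subtype, Subtype.exists, exists_and_left, exists_prop,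
            exists_eq_right_right]
          constructor
          · rintro ⟨h3, h4⟩; exact ⟨h4, h3⟩
          · rintro ⟨h3, h4⟩; exact ⟨h4, h3⟩
        rw [h2]
        exact h1) (bad.image e) (by
        intro t ht
        rw [Finset.mem_image] at ht
        obtain ⟨s, hs, rfl⟩ := ht
        rw [hbad, Finset.mem_filter] at hs
        obtain ⟨g1, g2, g3, g4, g5, g6, g7, -, g9⟩ := hX s hs.1
        -- the point with the largest ρ
        have hmax : ∃ y ∈ T, ρ (X₀ s) ≤ ρ y ∧ ρ (X₁ s) ≤ ρ y ∧ ρ (X₂ s) ≤ ρ y ∧ r₀ < ρ y ∧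
            dH G H y (X s) ≤ ρ y + 1 := by
          have hor : r₀ < ρ (X₀ s) ∨ r₀ < ρ (X₁ s) ∨ r₀ < ρ (X₂ s) := by
            by_contra hno
            push Not at hno
            exact hs.2 ⟨hno.1, hno.2.1, hno.2.2⟩
          by_cases c1 : ρ (X₁ s) ≤ ρ (X₀ s) ∧ ρ (X₂ s) ≤ ρ (X₀ s)
          · exact ⟨X₀ s, g2, le_refl _, c1.1, c1.2, by omega, by omega⟩
          · by_cases c2 : ρ (X₀ s) ≤ ρ (X₁ s) ∧ ρ (X₂ s) ≤ ρ (X₁ s)
            · exact ⟨X₁ s, g3, c2.1, le_refl _, c2.2, by omega, by omega⟩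
            · exact ⟨X₂ s, g4, by omega, by omega, le_refl _, by omega, by omega⟩
        obtain ⟨y, hy, m0, m1, m2, m3, m4⟩ := hmax
        have h9 := g9 (ρ y) m0 m1 m2
        have h10 := hτl (X s) y
        rw [dH_symm hc hAut (X s) y] at h10
        refine ⟨⟨y, hy⟩, m3, ?_, ?_⟩
        · have h11 := h9.1
          have h12 := h10.1
          rw [abs_le] at h11 h12 ⊢
          show -(8 * (ρ y : ℤ)) ≤ (s.1 : ℤ) - (τ y).1 ∧ (s.1 : ℤ) - (τ y).1 ≤ 8 * (ρ y : ℤ)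
          have m4' : (dH G H y (X s) : ℤ) ≤ ρ y + 1 := by exact_mod_cast m4
          have m3' : (1 : ℤ) ≤ ρ y := by
            have : 1 ≤ ρ y := by omega
            exact_mod_cast this
          constructor <;> linarith
        · have h11 := h9.2
          have h12 := h10.2
          rw [abs_le] at h11 h12 ⊢
          show -(8 * (ρ y : ℤ)) ≤ (s.2 : ℤ) - (τ y).2 ∧ (s.2 : ℤ) - (τ y).2 ≤ 8 * (ρ y : ℤ)
          have m4' : (dH G H y (X s) : ℤ) ≤ ρ y + 1 := by exact_mod_cast m4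
          have m3' : (1 : ℤ) ≤ ρ y := by
            have : 1 ≤ ρ y := by omega
            exact_mod_cast this
          constructor <;> linarith)
    rw [Finset.card_image_of_injective _ he, Fintype.card_coe] at hv
    exact hv
  have hbad2 : bad.card ≤ k ^ 2 := by
    by_contra hlt
    push Not at hlt
    have h1 : r₀ * (k ^ 2 + 1) ≤ 300000 * (Λ * k ^ 2) :=
      le_trans (Nat.mul_le_mul_left _ hlt) (le_trans hbadc (Nat.mul_le_mul_left _ hTc))
    rw [hr₀] at h1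
    nlinarith
  have hAk : 6 * k ≤ A := by
    rw [hAdef]
    have : 6 ≤ 3 * (3 * C + 2) := by omega
    exact Nat.mul_le_mul_right k this
  have hgoodc : k ^ 2 ≤ good.card := by
    have h1 : (6 * k) ^ 2 ≤ A ^ 2 := Nat.pow_le_pow_left hAk 2
    have h2 : A ^ 2 ≤ (A + 1) ^ 2 := Nat.pow_le_pow_left (by omega) 2
    have h3 : (6 * k) ^ 2 = 36 * k ^ 2 := by ring
    omega
  -- the good parameters
  refine ⟨good.image X, ?_, ?_, ?_⟩
  · intro u hu
    rw [Finset.mem_image] at hu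
    obtain ⟨t, ht, rfl⟩ := hu
    rw [hgood, Finset.mem_filter] at ht
    exact (hX t ht.1).1
  · refine le_trans hgoodc ?_
    have hfib : ∀ u ∈ good.image X, (good.filter (fun t => X t = u)).card ≤ (4 * r₀ + 5) ^ 2 := by
      intro u _
      have hsub : (good.filter (fun t => X t = u)).image e ⊆
          Finset.Icc ((τ u).1 - (2 * r₀ + 2)) ((τ u).1 + (2 * r₀ + 2)) ×ˢ
          Finset.Icc ((τ u).2 - (2 * r₀ + 2)) ((τ u).2 + (2 * r₀ + 2)) := by
        intro t ht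
        rw [Finset.mem_image] at ht
        obtain ⟨s, hs, rfl⟩ := ht
        rw [Finset.mem_filter, hgood, Finset.mem_filter] at hs
        obtain ⟨⟨hs1, hs2, hs3, hs4⟩, hs5⟩ := hs
        obtain ⟨-, -, -, -, -, -, -, -, g9⟩ := hX s hs1
        have h9 := g9 r₀ hs2 hs3 hs4
        rw [hs5, abs_le, abs_le] at h9
        rw [Finset.mem_product, Finset.mem_Icc, Finset.mem_Icc]
        show (_ ≤ (s.1 : ℤ) ∧ (s.1 : ℤ) ≤ _) ∧ (_ ≤ (s.2 : ℤ) ∧ (s.2 : ℤ) ≤ _)
        obtain ⟨⟨a1, a2⟩, a3, a4⟩ := h9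
        refine ⟨⟨by linarith, by linarith⟩, by linarith, by linarith⟩
      have h1 := Finset.card_le_card hsub
      rw [Finset.card_image_of_injective _ he, Finset.card_product, Int.card_Icc,
        Int.card_Icc] at h1
      have e1 : ((τ u).1 + (2 * (r₀ : ℤ) + 2) + 1 - ((τ u).1 - (2 * r₀ + 2))).toNat = 4 * r₀ + 5 := by
        have : (τ u).1 + (2 * (r₀ : ℤ) + 2) + 1 - ((τ u).1 - (2 * r₀ + 2)) = ((4 * r₀ + 5 : ℕ) : ℤ) := by
          push_cast; ring
        rw [this, Int.toNat_natCast]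
      have e2 : ((τ u).2 + (2 * (r₀ : ℤ) + 2) + 1 - ((τ u).2 - (2 * r₀ + 2))).toNat = 4 * r₀ + 5 := by
        have : (τ u).2 + (2 * (r₀ : ℤ) + 2) + 1 - ((τ u).2 - (2 * r₀ + 2)) = ((4 * r₀ + 5 : ℕ) : ℤ) := by
          push_cast; ring
        rw [this, Int.toNat_natCast]
      rw [e1, e2] at h1
      rw [pow_two]
      exact h1
    have h2 := Finset.card_le_mul_card_image (f := X) good ((4 * r₀ + 5) ^ 2) hfib
    exact h2
  · intro u hu
    rw [Finset.mem_image] at hu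
    obtain ⟨t, ht, rfl⟩ := hu
    rw [hgood, Finset.mem_filter] at ht
    obtain ⟨-, -, -, -, g5, -, -, g8, -⟩ := hX t ht.1
    refine ⟨X₀ t, ?_, ?_⟩
    · obtain ⟨h, hh⟩ := dH_spec (G := G) (H := H) (X₀ t) (X t)
      refine ⟨h⁻¹, ?_⟩
      have h1 := dist_smul hc hAut h⁻¹ (X₀ t) (h • X t)
      rw [inv_smul_smul] at h1
      rw [SimpleGraph.dist_comm, h1, hh]
      exact le_trans g5 ht.2.1
    · rw [eq_top_iff, ← g8]
      apply Subgroup.closure_mono
      intro h hh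
      have hh' : G.dist (X₀ t) (h • X₀ t) ≤ 2 * ρ (X₀ t) + 1 := hh
      have := ht.2.1
      show G.dist (X₀ t) (h • X₀ t) ≤ 2 * r₀ + 1
      omega

end MSG.F22
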